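import Pool.Agent.Lib.MP_a542cf_al.H.BadPrimes

/-! Explicit criterion: at a prime `p > 8 ^ (T ^ 4)` the relations between roots of unity of order
`≤ T` lift to characteristic zero. -/

namespace MW

theorem relLift_large (T p : ℕ) [hp : Fact p.Prime] (hT : 8 ^ (T ^ 4) < p) (K : Type) [Field K]
    [CharP K p] (S : Subring ℂ) (φ : S →+* K) : RelLift T S φ := by
  intro a b c d na nb nc nd hna hna' ha hnb hnb' hb hnc hnc' hc hnd hnd' hd h
  by_contra hne
  have cinv : ∀ x : Sˣ, (((x⁻¹ : Sˣ) : S) : ℂ) = ((x : S) : ℂ)⁻¹ := by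
    intro x
    have h5 : ((x : S) : ℂ) * (((x⁻¹ : Sˣ) : S) : ℂ) = 1 := by
      rw [← Subring.coe_mul, Units.mul_inv, Subring.coe_one]
    exact (eq_inv_of_mul_eq_one_right h5)
  have cpow : ∀ (x : Sˣ) (n : ℕ), x ^ n = 1 → ((x : S) : ℂ) ^ n = 1 := by
    intro x n hx
    rw [← Subring.coe_pow, ← Units.val_pow_eq_pow_val, hx, Units.val_one, Subring.coe_one]
  set q : ℂ × ℂ × ℂ × ℂ := (((a : S) : ℂ), ((b : S) : ℂ), ((c : S) : ℂ), ((d : S) : ℂ)) with hq
  set δ : S := ((a : S) + ((a⁻¹ : Sˣ) : S)) * ((b : S) + ((b⁻¹ : Sˣ) : S)) -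
    ((c : S) + ((c⁻¹ : Sˣ) : S)) - ((d : S) + ((d⁻¹ : Sˣ) : S)) with hδ
  have hδq : (δ : ℂ) = h_badprimes_delta q := by
    rw [hδ, hq]
    simp only [h_badprimes_delta, AddSubgroupClass.coe_sub, Subring.coe_mul, Subring.coe_add, cinv]
  have hm : 0 < na * nb * nc * nd := by positivity
  have hco := h_badprimes_coeff (q := q) hm
    (h_badprimes_pow (cpow a na ha) ⟨nb * nc * nd, by ring⟩)
    (h_badprimes_pow (cpow b nb hb) ⟨na * nc * nd, by ring⟩)
    (h_badprimes_pow (cpow c nc hc) ⟨na * nb * nd, by ring⟩)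
    (h_badprimes_pow (cpow d nd hd) ⟨na * nb * nc, by ring⟩)
  have hδ0 : h_badprimes_delta q ≠ 0 := by
    rw [← hδq]
    intro h0
    exact hne (Subtype.ext h0)
  have hc0 : (minpoly ℤ (h_badprimes_delta q)).coeff 0 ≠ 0 := by
    intro h0
    have h9 : (minpoly ℚ (h_badprimes_delta q)).coeff 0 ≠ 0 :=
      minpoly.coeff_zero_ne_zero hco.1.tower_top hδ0
    apply h9
    rw [minpoly.isIntegrallyClosed_eq_field_fractions' ℚ hco.1, Polynomial.coeff_map, h0, map_zero]
  -- reduce modulo the kernel of φ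
  have hS : Polynomial.aeval δ (minpoly ℤ (h_badprimes_delta q)) = 0 := by
    apply Subtype.ext
    have h6 := minpoly.aeval ℤ (h_badprimes_delta q)
    rw [← hδq] at h6 ⊢
    have h7 : S.subtype (Polynomial.aeval δ (minpoly ℤ (δ : ℂ))) =
        Polynomial.aeval (δ : ℂ) (minpoly ℤ (δ : ℂ)) := by
      rw [Polynomial.aeval_def, Polynomial.aeval_def, Polynomial.hom_eval₂]
      congr 1
    rw [h6] at h7
    exact h7
  have hK : ((((minpoly ℤ (h_badprimes_delta q)).coeff 0 : ℤ)) : K) = 0 := by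
    have h8 := congrArg φ hS
    rw [map_zero, Polynomial.aeval_def, Polynomial.hom_eval₂, h, Polynomial.eval₂_at_zero] at h8
    simpa using h8
  have hdvd : (p : ℤ) ∣ (minpoly ℤ (h_badprimes_delta q)).coeff 0 :=
    (CharP.intCast_eq_zero_iff K p _).mp hK
  have h3 : na * nb * nc * nd ≤ T ^ 4 := by
    calc na * nb * nc * nd ≤ T * T * T * T := by gcongr
      _ = T ^ 4 := by ring
  have h4 : ((minpoly ℤ (h_badprimes_delta q)).coeff 0).natAbs < p :=
    lt_of_le_of_lt (hco.2.trans (Nat.pow_le_pow_right (by norm_num) h3)) hT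
  have h5 := Nat.le_of_dvd (Nat.pos_of_ne_zero (Int.natAbs_ne_zero.mpr hc0))
    (Int.natCast_dvd.mp hdvd)
  omega

end MW
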