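import Pool.Agent.Lib.MP_a542cf_al.R.Final3
import Pool.Agent.Lib.MP_a542cf_al.E.Det
import Pool.Agent.Lib.MP_a542cf_al.E.NoSmall

/-! Explicit criterion: all levels at `p` if `p` is large in terms of the threshold `T`. -/

namespace MW

theorem all_levels_det : ∃ p₀ : ℕ, ∀ (T p : ℕ) [Fact p.Prime], p₀ ≤ p →
    8 ^ ((T ^ 2 + 2) ^ 4) < p → 64 * (T ^ 2 + 2) ^ 12 < p →
      Thr p T → ∀ k : ZMod p, k ≠ 2 → numOrbits p k = expected p k := by
  obtain ⟨p₁, hcore⟩ := core_props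
  obtain ⟨p₂, hfin⟩ := final_G
  obtain ⟨p₃, hex⟩ := exPrim
  obtain ⟨p₄, hsp⟩ := spec3
  refine ⟨p₁ + p₂ + p₃ + p₄ + 5, fun T p _ hp hpB hpT hDT k hk => ?_⟩
  let : Fintype (GaloisField p 2) := Fintype.ofFinite _
  have hK : Fintype.card (GaloisField p 2) = p ^ 2 := by
    rw [← Nat.card_eq_fintype_card, GaloisField.card p 2 (by norm_num)]
  have hk4 : k + 2 ≠ 4 := by intro h; apply hk; linear_combination h
  obtain ⟨G, hGP⟩ := hcore p (by omega) (GaloisField p 2) hK (k + 2) hk4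
  refine (hfin p (by omega) (GaloisField p 2) hK k hk G hGP).2 ?_
  intro P hP hPk
  obtain ⟨Q, t, hPQ, hreg, hord, htT⟩ := noSmall_of_rel T p (by omega) hpT
    (fun K _ _ S φ => relLift_large _ p hpB K S φ) (GaloisField p 2) hK
    (fun κ => hex p (by omega) (GaloisField p 2) hK κ) P hP (by rw [hPk]; exact hk)
  have hQX : OnX (k + 2) (triple Q) := by
    refine onX_triple Q (k + 2) ?_
    rw [← lev_nequiv hPQ, hPk]
    ring
  rw [hPk] at hreg
  have hQG : triple Q ∈ G := by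
    unfold triple at hQX ⊢
    exact hsp p (by omega) (GaloisField p 2) hK (k + 2) hk4 G hGP T hDT _ _ _ hQX hreg t hord htT
  exact (nequiv_mem hPQ G hGP.inv).2 hQG

end MW
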