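import Pool.Agent.Lib.MP_a542cf_al.E.Moment
import Pool.Agent.Lib.MP_a542cf_al.E.Final

/-!
# The divisor criterion and its density
-/

namespace MW

open Finset

/-- `FewDiv n`: for every natural number `t` with `t^9 ≥ log n` the number of divisors `≤ t` of
`n - 1` plus the number of divisors `≤ t` of `n + 1` is at most `t^(1/3) / 128`. -/
def FewDiv (n : ℕ) : Prop := ∀ t : ℕ, Real.log n ≤ (t : ℝ) ^ 9 → 2 ^ 21 * (Dt n t) ^ 3 ≤ t

private theorem pow_ineq (N : ℕ) (hN : 3 ≤ N) : 64 * N ^ 12 < 8 ^ (N ^ 4) := by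
  have h1 : N < 8 ^ N := Nat.lt_pow_self (by norm_num)
  have h2 : N ^ 12 < (8 ^ N) ^ 12 := Nat.pow_lt_pow_left h1 (by norm_num)
  have h3 : 64 * N ^ 12 < 8 ^ (2 + N * 12) := by
    calc 64 * N ^ 12 < 64 * (8 ^ N) ^ 12 := by omega
      _ = 8 ^ 2 * (8 ^ N) ^ 12 := by norm_num
      _ = 8 ^ (2 + N * 12) := by rw [pow_add, pow_mul]
  refine h3.trans_le (Nat.pow_le_pow_right (by norm_num) ?_)
  have h4 : 27 * N ≤ N ^ 4 := by
    calc 27 * N = 3 ^ 3 * N := by norm_num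
      _ ≤ N ^ 3 * N := Nat.mul_le_mul_right _ (Nat.pow_le_pow_left hN 3)
      _ = N ^ 4 := by ring
  omega

private theorem thr_of_few {p T : ℕ} (h : FewDiv p) (hT : Real.log p ≤ (T : ℝ) ^ 9) : Thr p T := by
  intro t ht
  refine h t (hT.trans ?_)
  exact pow_le_pow_left₀ (Nat.cast_nonneg _) (by exact_mod_cast ht) 9

private theorem log8 : Real.log 8 < 21 / 10 := by
  have h : (8 : ℝ) = 2 ^ 3 := by norm_num
  rw [h, Real.log_pow]
  have := Real.log_two_lt_d9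
  push_cast
  linarith

private theorem exp_ineq {p u : ℕ} (hu : 12 ≤ u) (h : (u : ℝ) ^ 9 < Real.log p) (hp : 0 < p) :
    8 ^ (((u + 1) ^ 2 + 2) ^ 4) < p := by
  have hp0 : (0 : ℝ) < p := by exact_mod_cast hp
  have h1 : Real.log (((8 ^ (((u + 1) ^ 2 + 2) ^ 4) : ℕ) : ℝ)) < Real.log p := by
    refine lt_of_le_of_lt ?_ h
    rw [Nat.cast_pow, Real.log_pow]
    have hu0 : (12 : ℝ) ≤ u := by exact_mod_cast hu
    have h2 : ((((u + 1) ^ 2 + 2 : ℕ) : ℝ)) ≤ (119 / 100) * (u : ℝ) ^ 2 := by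
      push_cast
      nlinarith
    have h3 : (((((u + 1) ^ 2 + 2) ^ 4 : ℕ) : ℝ)) ≤ ((119 / 100) * (u : ℝ) ^ 2) ^ 4 := by
      rw [Nat.cast_pow]
      exact pow_le_pow_left₀ (Nat.cast_nonneg _) h2 4
    have h8 : Real.log ((8 : ℕ) : ℝ) ≤ 21 / 10 := by exact_mod_cast log8.le
    have h80 : 0 ≤ Real.log ((8 : ℕ) : ℝ) := Real.log_natCast_nonneg 8
    calc (((((u + 1) ^ 2 + 2) ^ 4 : ℕ) : ℝ)) * Real.log ((8 : ℕ) : ℝ)
        ≤ ((119 / 100) * (u : ℝ) ^ 2) ^ 4 * (21 / 10) :=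
          mul_le_mul h3 h8 h80 (by positivity)
      _ = ((119 / 100) ^ 4 * (21 / 10)) * (u : ℝ) ^ 8 := by ring
      _ ≤ (u : ℝ) * (u : ℝ) ^ 8 := by
          refine mul_le_mul_of_nonneg_right ?_ (by positivity)
          norm_num
          linarith
      _ = (u : ℝ) ^ 9 := by ring
  have h4 := (Real.log_lt_log_iff (by positivity) hp0).1 h1
  exact_mod_cast h4

theorem all_levels_few : ∃ p₀ : ℕ, ∀ (p : ℕ) [Fact p.Prime], p₀ ≤ p → FewDiv p →
    ∀ k : ZMod p, k ≠ 2 → numOrbits p k = expected p k := by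
  obtain ⟨p₁, h1⟩ := all_levels_det
  refine ⟨p₁ + ⌈Real.exp (12 ^ 9)⌉₊ + 1, fun p _ hp hF => ?_⟩
  have hpe : Real.exp (12 ^ 9) < p := by
    have h2 : Real.exp (12 ^ 9) ≤ (⌈Real.exp (12 ^ 9)⌉₊ : ℝ) := Nat.le_ceil _
    have h3 : (⌈Real.exp (12 ^ 9)⌉₊ : ℝ) < (p : ℝ) := Nat.cast_lt.2 (by omega)
    linarith
  have hp0 : (0 : ℝ) < p := lt_trans (Real.exp_pos _) hpe
  have hlog : (12 : ℝ) ^ 9 < Real.log p := (Real.lt_log_iff_exp_lt hp0).2 hpe
  have hex : ∃ T : ℕ, Real.log p ≤ (T : ℝ) ^ 9 := by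
    obtain ⟨T, hT⟩ := exists_nat_gt (Real.log p)
    refine ⟨T + 1, ?_⟩
    have h4 : ((T : ℝ) + 1) ≤ ((T : ℝ) + 1) ^ 9 :=
      le_self_pow₀ (by have : (0 : ℝ) ≤ T := Nat.cast_nonneg _
                       linarith) (by norm_num)
    push_cast
    linarith
  classical
  set T := Nat.find hex with hTdef
  have hT : Real.log p ≤ (T : ℝ) ^ 9 := Nat.find_spec hex
  have hT12 : 12 < T := by
    by_contra hcon
    have h5 : (T : ℝ) ≤ 12 := by exact_mod_cast (not_lt.1 hcon)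
    have h6 : (T : ℝ) ^ 9 ≤ 12 ^ 9 := pow_le_pow_left₀ (Nat.cast_nonneg _) h5 9
    linarith
  obtain ⟨u, hu⟩ : ∃ u, T = u + 1 := ⟨T - 1, by omega⟩
  have hu1 : (u : ℝ) ^ 9 < Real.log p := by
    have := Nat.find_min hex (m := u) (by omega)
    exact not_le.1 this
  have hb := exp_ineq (p := p) (u := u) (by omega) hu1 (by omega)
  rw [← hu] at hb
  exact h1 T p (by omega) hb ((pow_ineq _ (by nlinarith)).trans hb) (thr_of_few hF hT)

private theorem not_few_large {n : ℕ} (hn : 2 ≤ n) (h : ¬ FewDiv n) (V : ℝ)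
    (hV : (2 ^ 24 * V ^ 3) ^ 36 ≤ Real.log n) : V < Fw (n - 1) ∨ V < Fw (n + 1) := by
  unfold FewDiv at h
  push Not at h
  obtain ⟨t, ht1, ht2⟩ := h
  by_contra hcon
  push Not at hcon
  have hn1 : (1 : ℝ) < n := by exact_mod_cast (by omega)
  have hlog : 0 < Real.log n := Real.log_pos hn1
  have ht0 : 0 < t := by
    rcases Nat.eq_zero_or_pos t with rfl | ht
    · norm_num at ht1
      linarith
    · exact ht
  have htr : (0 : ℝ) < t := by exact_mod_cast ht0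
  set s : ℝ := (t : ℝ) ^ (1 / 4 : ℝ) with hs
  have hs0 : 0 < s := Real.rpow_pos_of_pos htr _
  have hs4 : s ^ 4 = t := by
    rw [hs, ← Real.rpow_natCast, ← Real.rpow_mul htr.le]
    norm_num
  have h3 : (Dt n t : ℝ) ≤ 2 * s * V := by
    unfold Dt
    push_cast
    have h4 := card_le_Fw (n - 1) t
    have h5 := card_le_Fw (n + 1) t
    have h6 : s * Fw (n - 1) ≤ s * V := mul_le_mul_of_nonneg_left hcon.1 hs0.le
    have h7 : s * Fw (n + 1) ≤ s * V := mul_le_mul_of_nonneg_left hcon.2 hs0.le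
    linarith
  have h8 : (t : ℝ) < 2 ^ 21 * (Dt n t : ℝ) ^ 3 := by exact_mod_cast ht2
  have h9 : (Dt n t : ℝ) ^ 3 ≤ (2 * s * V) ^ 3 := pow_le_pow_left₀ (Nat.cast_nonneg _) h3 3
  have h10 : s ^ 4 < (2 ^ 24 * V ^ 3) * s ^ 3 := by
    rw [hs4]
    calc (t : ℝ) < 2 ^ 21 * (Dt n t : ℝ) ^ 3 := h8
      _ ≤ 2 ^ 21 * (2 * s * V) ^ 3 := by linarith
      _ = _ := by ring
  have h11 : s < 2 ^ 24 * V ^ 3 := by
    have h12 : s * s ^ 3 < (2 ^ 24 * V ^ 3) * s ^ 3 := by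
      calc s * s ^ 3 = s ^ 4 := by ring
        _ < _ := h10
    exact lt_of_mul_lt_mul_right h12 (by positivity)
  have h13 : s ^ 36 < (2 ^ 24 * V ^ 3) ^ 36 := pow_lt_pow_left₀ h11 hs0.le (by norm_num)
  have h14 : s ^ 36 = (t : ℝ) ^ 9 := by
    rw [← hs4]
    ring
  rw [h14] at h13
  linarith

private theorem log_pow_le (A : ℕ) : ∃ K : ℝ, 0 ≤ K ∧ ∀ x : ℝ, 1 ≤ x →
    (Real.log x) ^ A ≤ K * Real.sqrt x := by
  have hA : (0 : ℝ) < 2 * ((A : ℝ) + 1) := by positivity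
  set ε : ℝ := 1 / (2 * ((A : ℝ) + 1)) with hε
  have hε0 : 0 < ε := by positivity
  refine ⟨(1 / ε) ^ A, by positivity, fun x hx => ?_⟩
  have hx0 : (0 : ℝ) ≤ x := by linarith
  have h1 : Real.log x ≤ x ^ ε / ε := Real.log_le_rpow_div hx0 hε0
  have h2 : (Real.log x) ^ A ≤ (x ^ ε / ε) ^ A := pow_le_pow_left₀ (Real.log_nonneg hx) h1 A
  refine h2.trans ?_
  rw [div_eq_mul_one_div, mul_pow, mul_comm]
  refine mul_le_mul_of_nonneg_left ?_ (by positivity)
  rw [← Real.rpow_natCast, ← Real.rpow_mul hx0, Real.sqrt_eq_rpow]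
  refine Real.rpow_le_rpow_of_exponent_le hx ?_
  rw [hε, div_mul_eq_mul_div, one_mul, div_le_div_iff₀ hA (by norm_num)]
  linarith

open Classical in
theorem few_density (A : ℕ) : ∃ C : ℝ, ∀ x : ℕ, 2 ≤ x →
    (((range (x + 1)).filter (fun n => ¬ FewDiv n)).card : ℝ) ≤ C * x / (Real.log x) ^ A := by
  obtain ⟨C, hC0, hC⟩ := Fw_markov (108 * A)
  obtain ⟨K, hK0, hK⟩ := log_pow_le A
  refine ⟨3 * K + 3 * (C * (256 ^ (108 * A) * 2 ^ A)), fun x hx => ?_⟩
  have hx1 : (1 : ℝ) < x := by exact_mod_cast (by omega)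
  have hx0 : (0 : ℝ) < x := by linarith
  set L : ℝ := Real.log x with hL
  have hL0 : 0 < L := Real.log_pos hx1
  set V : ℝ := (L / 2) ^ (1 / 108 : ℝ) / 256 with hVdef
  have hV0 : 0 < V := div_pos (Real.rpow_pos_of_pos (by linarith) _) (by norm_num)
  have hVp : V ^ 108 = L / 2 / 256 ^ 108 := by
    rw [hVdef, div_pow, ← Real.rpow_natCast ((L / 2) ^ (1 / 108 : ℝ)) 108,
      ← Real.rpow_mul (by linarith)]
    norm_num
  have hV36 : (2 ^ 24 * V ^ 3) ^ 36 = L / 2 := by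
    calc (2 ^ 24 * V ^ 3) ^ 36 = (256 : ℝ) ^ 108 * V ^ 108 := by ring
      _ = 256 ^ 108 * (L / 2 / 256 ^ 108) := by rw [hVp]
      _ = L / 2 := by field_simp
  have hVr : V ^ (108 * A) = L ^ A / (256 ^ (108 * A) * 2 ^ A) := by
    rw [pow_mul, hVp, div_pow, div_pow, ← pow_mul, div_div, mul_comm (2 ^ A : ℝ)]
  have hsub : (range (x + 1)).filter (fun n => ¬ FewDiv n) ⊆
      range (Nat.sqrt x + 2) ∪ (((Icc 1 x).filter (fun m => V < Fw m)).image (fun m => m + 1) ∪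
        ((Icc 1 (x + 1)).filter (fun m => V < Fw m)).image (fun m => m - 1)) := by
    intro n hn
    rw [mem_filter, mem_range] at hn
    obtain ⟨hn1, hn2⟩ := hn
    by_cases hns : n < Nat.sqrt x + 2
    · exact mem_union_left _ (mem_range.2 hns)
    · refine mem_union_right _ ?_
      have hn2' : 2 ≤ n := by omega
      have hsq : x < n * n := by
        have := Nat.sqrt_lt.1 (show Nat.sqrt x < n by omega)
        exact this
      have hlogn : L / 2 ≤ Real.log n := by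
        have h1 : (x : ℝ) ≤ (n : ℝ) ^ 2 := by
          rw [sq]
          exact_mod_cast hsq.le
        have h2 := Real.log_le_log hx0 h1
        rw [Real.log_pow] at h2
        push_cast at h2
        linarith
      rcases not_few_large hn2' hn2 V (by rw [hV36]; exact hlogn) with h | h
      · refine mem_union_left _ (mem_image.2 ⟨n - 1, ?_, by omega⟩)
        rw [mem_filter, mem_Icc]
        exact ⟨⟨by omega, by omega⟩, h⟩
      · refine mem_union_right _ (mem_image.2 ⟨n + 1, ?_, by omega⟩)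
        rw [mem_filter, mem_Icc]
        exact ⟨⟨by omega, by omega⟩, h⟩
  have hcard : (((range (x + 1)).filter (fun n => ¬ FewDiv n)).card : ℝ) ≤
      (Nat.sqrt x + 2 : ℝ) + (C * x / V ^ (108 * A) + C * (x + 1 : ℝ) / V ^ (108 * A)) := by
    have h1 := Finset.card_le_card hsub
    have h2 := h1.trans ((Finset.card_union_le _ _).trans (Nat.add_le_add_left
      ((Finset.card_union_le _ _).trans (Nat.add_le_add Finset.card_image_le
        Finset.card_image_le)) _))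
    rw [card_range] at h2
    have h3 : (((range (x + 1)).filter (fun n => ¬ FewDiv n)).card : ℝ) ≤
        (((Nat.sqrt x + 2) + (((Icc 1 x).filter (fun m => V < Fw m)).card +
          ((Icc 1 (x + 1)).filter (fun m => V < Fw m)).card) : ℕ) : ℝ) := by
      exact_mod_cast h2
    refine h3.trans ?_
    have h4 := hC x V hV0
    have h5 := hC (x + 1) V hV0
    push_cast at h5 ⊢
    linarith
  refine hcard.trans ?_
  have hsq : (Nat.sqrt x : ℝ) ≤ Real.sqrt x := Real.nat_sqrt_le_real_sqrt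
  have hs1 : (1 : ℝ) ≤ Real.sqrt x := by
    rw [Real.one_le_sqrt]
    exact hx1.le
  have hss : Real.sqrt x * Real.sqrt x = x := Real.mul_self_sqrt hx0.le
  have hLA : 0 < L ^ A := pow_pos hL0 A
  have h6 : (Nat.sqrt x + 2 : ℝ) ≤ 3 * K * x / L ^ A := by
    rw [le_div_iff₀ hLA]
    calc (Nat.sqrt x + 2 : ℝ) * L ^ A ≤ (3 * Real.sqrt x) * L ^ A :=
          mul_le_mul_of_nonneg_right (by linarith) hLA.le
      _ ≤ (3 * Real.sqrt x) * (K * Real.sqrt x) :=
          mul_le_mul_of_nonneg_left (hK x hx1.le) (by positivity)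
      _ = 3 * K * (Real.sqrt x * Real.sqrt x) := by ring
      _ = 3 * K * x := by rw [hss]
  have h7 : C * x / V ^ (108 * A) + C * (x + 1 : ℝ) / V ^ (108 * A) ≤
      3 * (C * (256 ^ (108 * A) * 2 ^ A)) * x / L ^ A := by
    rw [hVr, ← add_div, div_div_eq_mul_div, div_le_div_iff_of_pos_right hLA]
    have h8 : (C * x + C * (x + 1 : ℝ)) ≤ 3 * C * x := by nlinarith
    calc (C * x + C * (x + 1 : ℝ)) * (256 ^ (108 * A) * 2 ^ A)
        ≤ (3 * C * x) * (256 ^ (108 * A) * 2 ^ A) :=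
          mul_le_mul_of_nonneg_right h8 (by positivity)
      _ = _ := by ring
  calc _ ≤ 3 * K * x / L ^ A + 3 * (C * (256 ^ (108 * A) * 2 ^ A)) * x / L ^ A :=
        add_le_add h6 h7
    _ = _ := by ring

end MW
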