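import Pool.Agent.Lib.MP_a542cf_al.R.Core3
import Pool.Agent.Lib.MP_dd84fd_nt.DivBound

/-!
# Moments of `F m = ∑_{d ∣ m} d^(-1/4)`

`∑_{m ≤ y} F m ^ r ≤ C_r y` for every `r`.
-/

namespace MW

open Finset

/-- the weight `d^(-1/4)` -/
noncomputable def gw (d : ℕ) : ℝ := (d : ℝ) ^ (-(1 / 4) : ℝ)

/-- `F m = ∑_{d ∣ m} d^(-1/4)` -/
noncomputable def Fw (m : ℕ) : ℝ := ∑ d ∈ m.divisors, gw d

theorem gw_nonneg (d : ℕ) : 0 ≤ gw d := Real.rpow_nonneg (Nat.cast_nonneg _) _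

theorem gw_mul (a b : ℕ) : gw (a * b) = gw a * gw b := by
  unfold gw
  rw [Nat.cast_mul, Real.mul_rpow (Nat.cast_nonneg _) (Nat.cast_nonneg _)]

theorem gw_le_one (d : ℕ) : gw d ≤ 1 := by
  unfold gw
  rcases Nat.eq_zero_or_pos d with rfl | hd
  · rw [Nat.cast_zero, Real.zero_rpow (by norm_num)]
    norm_num
  · exact Real.rpow_le_one_of_one_le_of_nonpos (by exact_mod_cast hd) (by norm_num)

theorem Fw_nonneg (m : ℕ) : 0 ≤ Fw m := Finset.sum_nonneg fun d _ => gw_nonneg d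

theorem Fw_le_card (m : ℕ) : Fw m ≤ (m.divisors.card : ℝ) := by
  unfold Fw
  calc ∑ d ∈ m.divisors, gw d ≤ ∑ d ∈ m.divisors, (1 : ℝ) :=
        Finset.sum_le_sum fun d _ => gw_le_one d
    _ = (m.divisors.card : ℝ) := by simp

theorem Fw_mul (a b : ℕ) : Fw (a * b) ≤ Fw a * Fw b := by
  unfold Fw
  rw [Nat.divisors_mul, Finset.sum_mul_sum, ← Finset.sum_product']
  show ∑ d ∈ Finset.image₂ (fun x y => x * y) a.divisors b.divisors, gw d ≤ _
  rw [← Finset.image_uncurry_product]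
  calc ∑ d ∈ Finset.image (Function.uncurry fun x y => x * y) (a.divisors ×ˢ b.divisors), gw d
      ≤ ∑ x ∈ a.divisors ×ˢ b.divisors, gw (Function.uncurry (fun x y => x * y) x) :=
        Finset.sum_image_le_of_nonneg (fun x _ => gw_nonneg _)
    _ = ∑ x ∈ a.divisors ×ˢ b.divisors, gw x.1 * gw x.2 := by
        refine Finset.sum_congr rfl fun x _ => ?_
        rw [← gw_mul]
        rfl

theorem Fw_sum_bound (r : ℕ) : ∃ K : ℝ, 0 ≤ K ∧ ∀ N : ℕ,
    ∑ d ∈ Icc 1 N, Fw d ^ r * (gw d / d) ≤ K := by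
  obtain ⟨C, hC1, hC⟩ := Pool.Agent.Lib.MP_dd84fd_nt.DivBound.div_bound (8 * r)
  have hC0 : (0 : ℝ) ≤ C := Nat.cast_nonneg _
  have hsum : Summable (fun n : ℕ => (n : ℝ) ^ (-(9 / 8) : ℝ)) := by
    rw [Real.summable_nat_rpow]
    norm_num
  refine ⟨(C : ℝ) ^ (1 / 8 : ℝ) * ∑' n : ℕ, (n : ℝ) ^ (-(9 / 8) : ℝ), ?_, fun N => ?_⟩
  · refine mul_nonneg (Real.rpow_nonneg hC0 _) (tsum_nonneg fun n => Real.rpow_nonneg (Nat.cast_nonneg _) _)
  · calc ∑ d ∈ Icc 1 N, Fw d ^ r * (gw d / d)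
        ≤ ∑ d ∈ Icc 1 N, (C : ℝ) ^ (1 / 8 : ℝ) * (d : ℝ) ^ (-(9 / 8) : ℝ) := by
          refine Finset.sum_le_sum fun d hd => ?_
          have hd1 : 1 ≤ d := (Finset.mem_Icc.1 hd).1
          have hd0 : (0 : ℝ) < d := by exact_mod_cast hd1
          have h1 : Fw d ^ r ≤ (d.divisors.card : ℝ) ^ r :=
            pow_le_pow_left₀ (Fw_nonneg d) (Fw_le_card d) r
          have h2 : ((d.divisors.card : ℝ) ^ r) ^ 8 ≤ C * d := by
            rw [← pow_mul, mul_comm r 8]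
            exact_mod_cast hC d (by omega)
          have h3 : (d.divisors.card : ℝ) ^ r ≤ ((C : ℝ) * d) ^ (1 / 8 : ℝ) := by
            have hz : ∀ z : ℝ, 0 ≤ z → z = (z ^ 8) ^ (1 / 8 : ℝ) := by
              intro z hz
              rw [← Real.rpow_natCast z 8, ← Real.rpow_mul hz]
              norm_num
            rw [hz _ (pow_nonneg (Nat.cast_nonneg d.divisors.card) r)]
            exact Real.rpow_le_rpow (pow_nonneg (pow_nonneg (Nat.cast_nonneg _) _) _) h2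
              (by norm_num)
          have h5 : gw d / d = (d : ℝ) ^ (-(5 / 4) : ℝ) := by
            unfold gw
            rw [← Real.rpow_sub_one hd0.ne']
            norm_num
          calc Fw d ^ r * (gw d / d) ≤ ((C : ℝ) * d) ^ (1 / 8 : ℝ) * (gw d / d) :=
                mul_le_mul_of_nonneg_right (h1.trans h3) (div_nonneg (gw_nonneg _) hd0.le)
            _ = (C : ℝ) ^ (1 / 8 : ℝ) * ((d : ℝ) ^ (1 / 8 : ℝ) * (d : ℝ) ^ (-(5 / 4) : ℝ)) := by
                rw [h5, Real.mul_rpow hC0 hd0.le]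
                ring
            _ = (C : ℝ) ^ (1 / 8 : ℝ) * (d : ℝ) ^ (-(9 / 8) : ℝ) := by
                rw [← Real.rpow_add hd0]
                norm_num
      _ = (C : ℝ) ^ (1 / 8 : ℝ) * ∑ d ∈ Icc 1 N, (d : ℝ) ^ (-(9 / 8) : ℝ) := by
          rw [Finset.mul_sum]
      _ ≤ _ := by
          refine mul_le_mul_of_nonneg_left ?_ (Real.rpow_nonneg hC0 _)
          exact hsum.sum_le_tsum _ (fun n _ => Real.rpow_nonneg (Nat.cast_nonneg _) _)

theorem sum_divisors_swap (y : ℕ) (f : ℕ → ℕ → ℝ) :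
    ∑ m ∈ Icc 1 y, ∑ d ∈ m.divisors, f m d =
      ∑ d ∈ Icc 1 y, ∑ e ∈ Icc 1 (y / d), f (d * e) d := by
  rw [Finset.sum_sigma', Finset.sum_sigma']
  refine Finset.sum_bij' (fun x _ => ⟨x.2, x.1 / x.2⟩) (fun x _ => ⟨x.1 * x.2, x.1⟩) ?_ ?_ ?_ ?_ ?_
  · rintro ⟨m, d⟩ h
    simp only [Finset.mem_sigma, Finset.mem_Icc, Nat.mem_divisors] at h ⊢
    obtain ⟨⟨h1, h2⟩, h3, h4⟩ := h
    obtain ⟨e, rfl⟩ := h3
    have hd : 0 < d := Nat.pos_of_ne_zero (by rintro rfl; simp at h4)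
    have he : 0 < e := Nat.pos_of_ne_zero (by rintro rfl; simp at h4)
    refine ⟨⟨hd, le_trans (Nat.le_mul_of_pos_right d he) h2⟩, ?_, ?_⟩
    · rw [Nat.mul_div_cancel_left _ hd]; exact he
    · exact Nat.div_le_div_right h2
  · rintro ⟨d, e⟩ h
    simp only [Finset.mem_sigma, Finset.mem_Icc, Nat.mem_divisors] at h ⊢
    obtain ⟨⟨h1, h2⟩, h3, h4⟩ := h
    have hd : 0 < d := h1
    refine ⟨⟨Nat.mul_pos h1 h3, ?_⟩, Dvd.intro _ rfl, (Nat.mul_pos h1 h3).ne'⟩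
    rw [Nat.le_div_iff_mul_le hd] at h4
    linarith [mul_comm d e]
  · rintro ⟨m, d⟩ h
    simp only [Finset.mem_sigma, Finset.mem_Icc, Nat.mem_divisors] at h
    obtain ⟨⟨h1, h2⟩, h3, h4⟩ := h
    simp only [Nat.mul_div_cancel' h3]
  · rintro ⟨d, e⟩ h
    simp only [Finset.mem_sigma, Finset.mem_Icc] at h
    obtain ⟨⟨h1, h2⟩, h3, h4⟩ := h
    simp only [Nat.mul_div_cancel_left _ h1]
  · rintro ⟨m, d⟩ h
    simp only [Finset.mem_sigma, Finset.mem_Icc, Nat.mem_divisors] at h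
    obtain ⟨⟨h1, h2⟩, h3, h4⟩ := h
    simp only [Nat.mul_div_cancel' h3]

theorem Fw_moment (r : ℕ) : ∃ C : ℝ, 0 ≤ C ∧ ∀ y : ℕ, ∑ m ∈ Icc 1 y, Fw m ^ r ≤ C * y := by
  induction r with
  | zero => exact ⟨1, zero_le_one, fun y => by simp⟩
  | succ r ih =>
    obtain ⟨C, hC0, hC⟩ := ih
    obtain ⟨K, hK0, hK⟩ := Fw_sum_bound r
    refine ⟨C * K, mul_nonneg hC0 hK0, fun y => ?_⟩
    have hy0 : (0 : ℝ) ≤ y := Nat.cast_nonneg _
    calc ∑ m ∈ Icc 1 y, Fw m ^ (r + 1)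
        = ∑ m ∈ Icc 1 y, ∑ d ∈ m.divisors, Fw m ^ r * gw d := by
          refine Finset.sum_congr rfl fun m _ => ?_
          rw [pow_succ, ← Finset.mul_sum]
          rfl
      _ = ∑ d ∈ Icc 1 y, ∑ e ∈ Icc 1 (y / d), Fw (d * e) ^ r * gw d :=
          sum_divisors_swap y (fun m d => Fw m ^ r * gw d)
      _ ≤ ∑ d ∈ Icc 1 y, C * y * (Fw d ^ r * (gw d / d)) := by
          refine Finset.sum_le_sum fun d hd => ?_
          have hd1 : 1 ≤ d := (Finset.mem_Icc.1 hd).1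
          have hd0 : (0 : ℝ) < d := by exact_mod_cast hd1
          have h1 : ∀ e, Fw (d * e) ^ r * gw d ≤ (Fw d ^ r * gw d) * Fw e ^ r := by
            intro e
            calc Fw (d * e) ^ r * gw d ≤ (Fw d * Fw e) ^ r * gw d :=
                  mul_le_mul_of_nonneg_right (pow_le_pow_left₀ (Fw_nonneg _) (Fw_mul d e) r)
                    (gw_nonneg d)
              _ = _ := by rw [mul_pow]; ring
          calc ∑ e ∈ Icc 1 (y / d), Fw (d * e) ^ r * gw d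
              ≤ ∑ e ∈ Icc 1 (y / d), (Fw d ^ r * gw d) * Fw e ^ r :=
                Finset.sum_le_sum fun e _ => h1 e
            _ = (Fw d ^ r * gw d) * ∑ e ∈ Icc 1 (y / d), Fw e ^ r := by rw [Finset.mul_sum]
            _ ≤ (Fw d ^ r * gw d) * (C * ((y / d : ℕ) : ℝ)) :=
                mul_le_mul_of_nonneg_left (hC _)
                  (mul_nonneg (pow_nonneg (Fw_nonneg _) _) (gw_nonneg _))
            _ ≤ (Fw d ^ r * gw d) * (C * ((y : ℝ) / d)) := by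
                refine mul_le_mul_of_nonneg_left ?_
                  (mul_nonneg (pow_nonneg (Fw_nonneg _) _) (gw_nonneg _))
                exact mul_le_mul_of_nonneg_left Nat.cast_div_le hC0
            _ = _ := by ring
      _ = C * y * ∑ d ∈ Icc 1 y, Fw d ^ r * (gw d / d) := by rw [Finset.mul_sum]
      _ ≤ C * y * K := mul_le_mul_of_nonneg_left (hK y) (mul_nonneg hC0 hy0)
      _ = C * K * y := by ring

theorem Fw_markov (r : ℕ) : ∃ C : ℝ, 0 ≤ C ∧ ∀ (y : ℕ) (V : ℝ), 0 < V →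
    (((Icc 1 y).filter (fun m => V < Fw m)).card : ℝ) ≤ C * y / V ^ r := by
  obtain ⟨C, hC0, hC⟩ := Fw_moment r
  refine ⟨C, hC0, fun y V hV => ?_⟩
  rw [le_div_iff₀ (pow_pos hV r)]
  calc (((Icc 1 y).filter (fun m => V < Fw m)).card : ℝ) * V ^ r
      = ∑ m ∈ (Icc 1 y).filter (fun m => V < Fw m), V ^ r := by
        rw [Finset.sum_const, nsmul_eq_mul]
    _ ≤ ∑ m ∈ (Icc 1 y).filter (fun m => V < Fw m), Fw m ^ r := by
        refine Finset.sum_le_sum fun m hm => ?_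
        exact pow_le_pow_left₀ hV.le (Finset.mem_filter.1 hm).2.le r
    _ ≤ ∑ m ∈ Icc 1 y, Fw m ^ r :=
        Finset.sum_le_sum_of_subset_of_nonneg (Finset.filter_subset _ _)
          (fun m _ _ => pow_nonneg (Fw_nonneg m) r)
    _ ≤ C * y := hC y

/-- number of divisors `≤ t` of `m` is at most `t^(1/4) F m` -/
theorem card_le_Fw (m t : ℕ) :
    (((m.divisors).filter (fun s => s ≤ t)).card : ℝ) ≤ (t : ℝ) ^ (1 / 4 : ℝ) * Fw m := by
  unfold Fw
  rw [Finset.mul_sum]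
  calc (((m.divisors).filter (fun s => s ≤ t)).card : ℝ)
      = ∑ d ∈ (m.divisors).filter (fun s => s ≤ t), (1 : ℝ) := by simp
    _ ≤ ∑ d ∈ (m.divisors).filter (fun s => s ≤ t), (t : ℝ) ^ (1 / 4 : ℝ) * gw d := by
        refine Finset.sum_le_sum fun d hd => ?_
        rw [Finset.mem_filter] at hd
        have hd0 : 0 < d := Nat.pos_of_mem_divisors hd.1
        have hd1 : (0 : ℝ) < d := by exact_mod_cast hd0
        unfold gw
        rw [Real.rpow_neg hd1.le, ← div_eq_mul_inv, one_le_div (Real.rpow_pos_of_pos hd1 _)]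
        exact Real.rpow_le_rpow hd1.le (by exact_mod_cast hd.2) (by norm_num)
    _ ≤ ∑ d ∈ m.divisors, (t : ℝ) ^ (1 / 4 : ℝ) * gw d :=
        Finset.sum_le_sum_of_subset_of_nonneg (Finset.filter_subset _ _)
          (fun d _ _ => mul_nonneg (Real.rpow_nonneg (Nat.cast_nonneg _) _) (gw_nonneg d))

end MW
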